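import Mathlib
import Pool.Agent.X102.Lap

set_option autoImplicit false

open Filter Topology MeasureTheory Laplacian InnerProductSpace Pool.Agent.X102

namespace Pool.Agent.Results.MP_3ddb5a_an.LargeArea

/-- The reciprocal conformal factor `cosh² x + δ² (x² + y²)`. -/
noncomputable def phi (δ a b : ℝ) : ℝ := Real.cosh a ^ 2 + δ ^ 2 * (a ^ 2 + b ^ 2)

/-- The supersolution in coordinates. -/
noncomputable def U (δ a b : ℝ) : ℝ := -(1 / 2) * Real.log (phi δ a b)

lemma phi_pos (δ a b : ℝ) : 0 < phi δ a b := by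
  have := Real.cosh_pos a
  unfold phi; positivity

lemma hasDerivAt_phi_x (δ a b : ℝ) :
    HasDerivAt (fun s => phi δ s b) (2 * Real.cosh a * Real.sinh a + δ ^ 2 * (2 * a)) a := by
  unfold phi
  have h1 := (Real.hasDerivAt_cosh a).pow 2
  have h2 := (((hasDerivAt_id a).pow 2).add_const (b ^ 2)).const_mul (δ ^ 2)
  refine (h1.add h2).congr_deriv ?_
  simp

lemma hasDerivAt_phi_y (δ a b : ℝ) :
    HasDerivAt (fun s => phi δ a s) (δ ^ 2 * (2 * b)) b := by
  unfold phi
  have h2 := (((hasDerivAt_id b).pow 2).const_add (a ^ 2)).const_mul (δ ^ 2)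
  refine (h2.const_add (Real.cosh a ^ 2)).congr_deriv ?_
  simp

lemma hasDerivAt_U_x (δ a b : ℝ) :
    HasDerivAt (fun s => U δ s b)
      (-(1 / 2) * ((2 * Real.cosh a * Real.sinh a + δ ^ 2 * (2 * a)) / phi δ a b)) a := by
  unfold U
  exact ((hasDerivAt_phi_x δ a b).log (phi_pos δ a b).ne').const_mul _

lemma hasDerivAt_U_y (δ a b : ℝ) :
    HasDerivAt (fun s => U δ a s)
      (-(1 / 2) * ((δ ^ 2 * (2 * b)) / phi δ a b)) b := by
  unfold U
  exact ((hasDerivAt_phi_y δ a b).log (phi_pos δ a b).ne').const_mul _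

lemma hasDerivAt_Ux_x (δ a b : ℝ) :
    HasDerivAt (fun s => -(1 / 2) * ((2 * Real.cosh s * Real.sinh s + δ ^ 2 * (2 * s)) / phi δ s b))
      (-(1 / 2) * (((2 * (Real.cosh a ^ 2 + Real.sinh a ^ 2) + 2 * δ ^ 2) * phi δ a b -
        (2 * Real.cosh a * Real.sinh a + δ ^ 2 * (2 * a)) ^ 2) / phi δ a b ^ 2)) a := by
  have h1 : HasDerivAt (fun s => 2 * Real.cosh s * Real.sinh s + δ ^ 2 * (2 * s))
      (2 * (Real.cosh a ^ 2 + Real.sinh a ^ 2) + 2 * δ ^ 2) a := by
    have h2 := ((Real.hasDerivAt_cosh a).const_mul 2).mul (Real.hasDerivAt_sinh a)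
    have h3 := ((hasDerivAt_id a).const_mul 2).const_mul (δ ^ 2)
    refine (h2.add h3).congr_deriv ?_
    ring
  refine ((h1.div (hasDerivAt_phi_x δ a b) (phi_pos δ a b).ne').const_mul _).congr_deriv ?_
  ring

lemma hasDerivAt_Uy_y (δ a b : ℝ) :
    HasDerivAt (fun s => -(1 / 2) * ((δ ^ 2 * (2 * s)) / phi δ a s))
      (-(1 / 2) * (((2 * δ ^ 2) * phi δ a b - (δ ^ 2 * (2 * b)) ^ 2) / phi δ a b ^ 2)) b := by
  have h1 : HasDerivAt (fun s : ℝ => δ ^ 2 * (2 * s)) (2 * δ ^ 2) b := by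
    have h3 := ((hasDerivAt_id b).const_mul 2).const_mul (δ ^ 2)
    refine h3.congr_deriv ?_
    ring
  refine ((h1.div (hasDerivAt_phi_y δ a b) (phi_pos δ a b).ne').const_mul _).congr_deriv ?_
  ring

lemma contDiff_U (δ : ℝ) {n : WithTop ℕ∞} :
    ContDiff ℝ n (fun x : EuclideanSpace ℝ (Fin 2) => U δ (x 0) (x 1)) := by
  unfold U phi
  apply ContDiff.mul contDiff_const
  apply ContDiff.log
  · fun_prop
  · intro x
    exact (phi_pos δ (x 0) (x 1)).ne'

lemma exp_U (δ a b : ℝ) : Real.exp (2 * U δ a b) = (phi δ a b)⁻¹ := by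
  unfold U
  rw [show 2 * (-(1 / 2) * Real.log (phi δ a b)) = -Real.log (phi δ a b) by ring, Real.exp_neg,
    Real.exp_log (phi_pos δ a b)]

lemma supersol (δ : ℝ) (x : EuclideanSpace ℝ (Fin 2)) :
    Δ (fun x : EuclideanSpace ℝ (Fin 2) => U δ (x 0) (x 1)) x
      + Real.exp (2 * U δ (x 0) (x 1)) ≤ 0 := by
  rw [laplacian_plane (contDiff_U δ) (hasDerivAt_U_x δ) (hasDerivAt_Ux_x δ) (hasDerivAt_U_y δ)
    (hasDerivAt_Uy_y δ) x, exp_U]
  set a := x 0
  set b := x 1
  have hp := phi_pos δ a b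
  have hcs : Real.cosh a ^ 2 = 1 + Real.sinh a ^ 2 := by
    have := Real.cosh_sq a; linarith
  have key : 2 * phi δ a b ≤ (2 * (Real.cosh a ^ 2 + Real.sinh a ^ 2) + 2 * δ ^ 2) * phi δ a b -
        (2 * Real.cosh a * Real.sinh a + δ ^ 2 * (2 * a)) ^ 2 +
        ((2 * δ ^ 2) * phi δ a b - (δ ^ 2 * (2 * b)) ^ 2) := by
    have h1 : (2 * (Real.cosh a ^ 2 + Real.sinh a ^ 2) + 2 * δ ^ 2) * phi δ a b -
        (2 * Real.cosh a * Real.sinh a + δ ^ 2 * (2 * a)) ^ 2 +
        ((2 * δ ^ 2) * phi δ a b - (δ ^ 2 * (2 * b)) ^ 2) - 2 * phi δ a b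
        = 4 * δ ^ 2 * ((Real.cosh a - a * Real.sinh a) ^ 2 + (b * Real.sinh a) ^ 2) := by
      unfold phi
      have h2 : Real.cosh a ^ 4 = (1 + Real.sinh a ^ 2) ^ 2 := by rw [← hcs]; ring
      ring_nf
      rw [h2, hcs]
      ring
    have h3 : 0 ≤ 4 * δ ^ 2 * ((Real.cosh a - a * Real.sinh a) ^ 2 + (b * Real.sinh a) ^ 2) := by
      positivity
    linarith
  have h4 : (phi δ a b)⁻¹ = (1 / 2) * ((2 * phi δ a b) / phi δ a b ^ 2) := by
    field_simp
  rw [h4]
  have h5 : (2 * phi δ a b) / phi δ a b ^ 2 ≤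
      ((2 * (Real.cosh a ^ 2 + Real.sinh a ^ 2) + 2 * δ ^ 2) * phi δ a b -
        (2 * Real.cosh a * Real.sinh a + δ ^ 2 * (2 * a)) ^ 2) / phi δ a b ^ 2 +
        ((2 * δ ^ 2) * phi δ a b - (δ ^ 2 * (2 * b)) ^ 2) / phi δ a b ^ 2 := by
    rw [← add_div]
    exact div_le_div_of_nonneg_right key (by positivity)
  linarith

/-- The coordinate map of the Euclidean plane is measure preserving. -/
lemma mp : MeasurePreserving (fun x : EuclideanSpace ℝ (Fin 2) => (x 0, x 1)) volume volume := by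
  have h1 := EuclideanSpace.volume_preserving_symm_measurableEquiv_toLp (Fin 2)
  have h2 := (volume_preserving_finTwoArrow ℝ)
  have h3 := h2.comp h1
  exact h3

lemma inner_integrable (δ : ℝ) (hδ : 0 < δ) (a : ℝ) :
    Integrable (fun b : ℝ => (phi δ a b)⁻¹) := by
  have hA : 0 < Real.cosh a ^ 2 + δ ^ 2 * a ^ 2 := by
    have := Real.cosh_pos a
    positivity
  set A := Real.sqrt (Real.cosh a ^ 2 + δ ^ 2 * a ^ 2) with hAdef
  have hA2 : A ^ 2 = Real.cosh a ^ 2 + δ ^ 2 * a ^ 2 := Real.sq_sqrt hA.le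
  have hApos : 0 < A := Real.sqrt_pos.mpr hA
  have h1 : Integrable (fun b : ℝ => (1 + ((δ / A) * b) ^ 2)⁻¹) :=
    integrable_inv_one_add_sq.comp_mul_left' (by positivity)
  have h2 := h1.const_mul ((A ^ 2)⁻¹)
  refine h2.congr (Eventually.of_forall fun b => ?_)
  change (A ^ 2)⁻¹ * (1 + ((δ / A) * b) ^ 2)⁻¹ = (phi δ a b)⁻¹
  rw [← mul_inv]
  congr 1
  unfold phi
  have : A ^ 2 * (1 + (δ / A * b) ^ 2) = A ^ 2 + δ ^ 2 * b ^ 2 := by
    field_simp
  rw [this, hA2]
  ring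

lemma inner_integral (δ : ℝ) (hδ : 0 < δ) (a : ℝ) :
    ∫ b : ℝ, (phi δ a b)⁻¹ = Real.pi / (δ * Real.sqrt (Real.cosh a ^ 2 + δ ^ 2 * a ^ 2)) := by
  have hA : 0 < Real.cosh a ^ 2 + δ ^ 2 * a ^ 2 := by
    have := Real.cosh_pos a
    positivity
  set A := Real.sqrt (Real.cosh a ^ 2 + δ ^ 2 * a ^ 2) with hAdef
  have hA2 : A ^ 2 = Real.cosh a ^ 2 + δ ^ 2 * a ^ 2 := Real.sq_sqrt hA.le
  have hApos : 0 < A := Real.sqrt_pos.mpr hA
  have h0 : ∀ b : ℝ, (phi δ a b)⁻¹ = (A ^ 2)⁻¹ * (1 + ((δ / A) * b) ^ 2)⁻¹ := by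
    intro b
    rw [← mul_inv]
    congr 1
    unfold phi
    have : A ^ 2 * (1 + (δ / A * b) ^ 2) = A ^ 2 + δ ^ 2 * b ^ 2 := by
      field_simp
    rw [this, hA2]
    ring
  simp_rw [h0]
  rw [integral_const_mul, Measure.integral_comp_mul_left (fun b : ℝ => (1 + b ^ 2)⁻¹) (δ / A),
    integral_univ_inv_one_add_sq, abs_of_pos (by positivity), smul_eq_mul]
  field_simp

lemma one_add_sq_le_cosh (a : ℝ) : 1 + a ^ 2 / 2 ≤ Real.cosh a := by
  have h1 : Real.cosh a = 1 + 2 * Real.sinh (a / 2) ^ 2 := by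
    have := Real.cosh_two_mul (a / 2)
    rw [show 2 * (a / 2) = a by ring] at this
    have h2 := Real.cosh_sq (a / 2)
    linarith
  have h2 : (a / 2) ^ 2 ≤ Real.sinh (a / 2) ^ 2 := by
    rcases le_total 0 (a / 2) with h | h
    · have := Real.self_le_sinh_iff.mpr h
      nlinarith
    · have := Real.sinh_le_self_iff.mpr h
      nlinarith
  rw [h1]
  nlinarith

lemma prod_integrable (δ : ℝ) (hδ : 0 < δ) :
    Integrable (fun p : ℝ × ℝ => (phi δ p.1 p.2)⁻¹) (volume : Measure (ℝ × ℝ)) := by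
  have hcont : Continuous (fun p : ℝ × ℝ => (phi δ p.1 p.2)⁻¹) := by
    apply Continuous.inv₀
    · unfold phi
      have := Real.continuous_cosh
      fun_prop
    · intro p
      exact (phi_pos δ p.1 p.2).ne'
  rw [show (volume : Measure (ℝ × ℝ)) = (volume : Measure ℝ).prod volume from rfl]
  rw [integrable_prod_iff hcont.aestronglyMeasurable]
  refine ⟨Eventually.of_forall fun a => inner_integrable δ hδ a, ?_⟩
  have h1 : ∀ a : ℝ, ∫ b : ℝ, ‖(phi δ a b)⁻¹‖ =
      Real.pi / (δ * Real.sqrt (Real.cosh a ^ 2 + δ ^ 2 * a ^ 2)) := by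
    intro a
    rw [← inner_integral δ hδ a]
    congr 1
    ext b
    rw [Real.norm_of_nonneg]
    exact (inv_pos.mpr (phi_pos δ a b)).le
  simp_rw [h1]
  have hdom : Integrable (fun a : ℝ => (2 * Real.pi / δ) * (1 + a ^ 2)⁻¹) :=
    integrable_inv_one_add_sq.const_mul _
  refine hdom.mono' ?_ (Eventually.of_forall fun a => ?_)
  · have : Continuous (fun a : ℝ => Real.pi / (δ * Real.sqrt (Real.cosh a ^ 2 + δ ^ 2 * a ^ 2))) := by
      apply Continuous.div continuous_const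
      · have := Real.continuous_cosh
        fun_prop
      · intro a
        have := Real.cosh_pos a
        have : 0 < Real.sqrt (Real.cosh a ^ 2 + δ ^ 2 * a ^ 2) := Real.sqrt_pos.mpr (by positivity)
        positivity
    exact this.aestronglyMeasurable
  · have hc := Real.cosh_pos a
    have h2 : 1 + a ^ 2 / 2 ≤ Real.cosh a := one_add_sq_le_cosh a
    have h3 : Real.cosh a ≤ Real.sqrt (Real.cosh a ^ 2 + δ ^ 2 * a ^ 2) := by
      apply Real.le_sqrt_of_sq_le
      nlinarith [sq_nonneg (δ * a)]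
    have h4 : 0 < Real.sqrt (Real.cosh a ^ 2 + δ ^ 2 * a ^ 2) := lt_of_lt_of_le hc h3
    rw [Real.norm_of_nonneg (by positivity)]
    have h5 : (1 + a ^ 2) / 2 ≤ Real.sqrt (Real.cosh a ^ 2 + δ ^ 2 * a ^ 2) := by
      linarith
    calc Real.pi / (δ * Real.sqrt (Real.cosh a ^ 2 + δ ^ 2 * a ^ 2))
        ≤ Real.pi / (δ * ((1 + a ^ 2) / 2)) := by
          apply div_le_div_of_nonneg_left Real.pi_pos.le (by positivity)
          exact mul_le_mul_of_nonneg_left h5 hδ.le
      _ = (2 * Real.pi / δ) * (1 + a ^ 2)⁻¹ := by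
          field_simp

/-- There are real-analytic conformal metrics `e^{2u}δ` on the plane with curvature at least one
whose total area is finite and as large as we please. -/
theorem result : ∀ M : ℝ, ∃ u : EuclideanSpace ℝ (Fin 2) → ℝ, AnalyticOnNhd ℝ u Set.univ ∧
    (∀ x, Δ u x + Real.exp (2 * u x) ≤ 0) ∧
    Integrable (fun x => Real.exp (2 * u x)) ∧
    M < ∫ x, Real.exp (2 * u x) := by
  intro M
  set δ : ℝ := 1 / (3 * |M| + 3) with hδdef
  have hM : 0 ≤ |M| := abs_nonneg M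
  have hδ : 0 < δ := by positivity
  have hδ1 : δ ≤ 1 / 3 := by
    rw [hδdef]
    apply one_div_le_one_div_of_le (by norm_num)
    linarith
  have hint : Integrable (fun x : EuclideanSpace ℝ (Fin 2) => Real.exp (2 * U δ (x 0) (x 1))) := by
    have h1 := mp.integrable_comp_of_integrable (prod_integrable δ hδ)
    refine h1.congr (Eventually.of_forall fun x => ?_)
    simp [exp_U]
  refine ⟨fun x => U δ (x 0) (x 1), ?_, fun x => supersol δ x, hint, ?_⟩
  · rw [← contDiff_omega_iff_analyticOnNhd]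
    exact contDiff_U δ
  · have h1 : ∫ x : EuclideanSpace ℝ (Fin 2), Real.exp (2 * U δ (x 0) (x 1))
        = ∫ p : ℝ × ℝ, (phi δ p.1 p.2)⁻¹ := by
      have h2 := mp.integral_comp' (f := MeasurableEquiv.trans
        (MeasurableEquiv.toLp 2 (Fin 2 → ℝ)).symm MeasurableEquiv.finTwoArrow)
        (fun p : ℝ × ℝ => (phi δ p.1 p.2)⁻¹)
      rw [← h2]
      simp_rw [exp_U]
      rfl
    rw [h1]
    have h3 : ∫ p : ℝ × ℝ, (phi δ p.1 p.2)⁻¹
        = ∫ a : ℝ, Real.pi / (δ * Real.sqrt (Real.cosh a ^ 2 + δ ^ 2 * a ^ 2)) := by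
      rw [show (volume : Measure (ℝ × ℝ)) = (volume : Measure ℝ).prod volume from rfl]
      rw [integral_prod _ (prod_integrable δ hδ)]
      simp_rw [inner_integral δ hδ]
    rw [h3]
    have hpos : ∀ a : ℝ, 0 < Real.sqrt (Real.cosh a ^ 2 + δ ^ 2 * a ^ 2) := by
      intro a
      have := Real.cosh_pos a
      exact Real.sqrt_pos.mpr (by positivity)
    have hi : Integrable (fun a : ℝ =>
        Real.pi / (δ * Real.sqrt (Real.cosh a ^ 2 + δ ^ 2 * a ^ 2))) := by
      have h4 := (prod_integrable δ hδ)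
      rw [show (volume : Measure (ℝ × ℝ)) = (volume : Measure ℝ).prod volume from rfl] at h4
      have h5 := h4.integral_prod_left
      simpa only [inner_integral δ hδ] using h5
    have h6 : ∫ a in Set.Icc (-1 : ℝ) 1, Real.pi / (2 * δ) ≤
        ∫ a in Set.Icc (-1 : ℝ) 1, Real.pi / (δ * Real.sqrt (Real.cosh a ^ 2 + δ ^ 2 * a ^ 2)) := by
      apply setIntegral_mono_on (integrableOn_const (by simp)) hi.integrableOn measurableSet_Icc
      intro a ha
      have hc0 := Real.cosh_pos a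
      have hc : Real.cosh a ≤ Real.cosh 1 := by
        rw [Real.cosh_le_cosh, abs_one, abs_le]
        exact ⟨ha.1, ha.2⟩
      have hc1 : Real.cosh 1 ≤ Real.exp (1 / 2) := by
        have := Real.cosh_le_exp_half_sq 1
        simpa using this
      have he : Real.exp (1 / 2) ^ 2 ≤ 2.8 := by
        rw [← Real.exp_nat_mul]
        have := Real.exp_one_lt_d9
        norm_num at this ⊢
        linarith
      have hc2 : Real.cosh a ^ 2 ≤ 2.8 := by
        refine le_trans ?_ he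
        exact pow_le_pow_left₀ hc0.le (hc.trans hc1) 2
      have ha2 : δ ^ 2 * a ^ 2 ≤ 1 := by
        have h7 : a ^ 2 ≤ 1 := by
          have := ha.1; have := ha.2
          nlinarith
        have h8 : δ ^ 2 ≤ 1 := by nlinarith
        nlinarith [sq_nonneg δ, sq_nonneg a]
      have hs : Real.sqrt (Real.cosh a ^ 2 + δ ^ 2 * a ^ 2) ≤ 2 := by
        rw [Real.sqrt_le_left (by norm_num)]
        norm_num at hc2 ⊢
        linarith
      apply div_le_div_of_nonneg_left Real.pi_pos.le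
      · exact mul_pos hδ (hpos a)
      · nlinarith
    have h7 : ∫ a in Set.Icc (-1 : ℝ) 1, Real.pi / (δ * Real.sqrt (Real.cosh a ^ 2 + δ ^ 2 * a ^ 2))
        ≤ ∫ a : ℝ, Real.pi / (δ * Real.sqrt (Real.cosh a ^ 2 + δ ^ 2 * a ^ 2)) := by
      apply setIntegral_le_integral hi
      refine Eventually.of_forall fun a => ?_
      have := hpos a
      have := Real.pi_pos
      positivity
    have h8 : ∫ a in Set.Icc (-1 : ℝ) 1, Real.pi / (2 * δ) = Real.pi / δ := by
      rw [setIntegral_const]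
      simp only [measureReal_def, Real.volume_Icc, smul_eq_mul]
      rw [show (1 - -1 : ℝ) = 2 by norm_num, ENNReal.toReal_ofReal (by norm_num)]
      field_simp
    have h9 : Real.pi / δ = Real.pi * (3 * |M| + 3) := by
      rw [hδdef]; field_simp
    have h10 : M < Real.pi * (3 * |M| + 3) := by
      have h11 : (1 : ℝ) < Real.pi := by linarith [Real.pi_gt_three]
      have h12 : M ≤ |M| := le_abs_self M
      nlinarith
    linarith

end Pool.Agent.Results.MP_3ddb5a_an.LargeArea
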